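import Mathlib
import Pool.Agent.MP_119ce6_al.Defs
import Pool.Agent.MP_119ce6_al.Free

set_option autoImplicit false

namespace Pool.Agent.Results.MP_119ce6_al.PosChar

open Pool.Agent.MP_119ce6_al MvPolynomial

universe u

theorem prod_castLE {K : Type u} [Field K] (n : ℕ) (hn : 1 ≤ n) :
    ∏ i : Fin (n - 1), (X (Fin.castLE (Nat.sub_le n 1) i) : MvPolynomial (Fin n) K) =
      ∏ i ∈ Finset.univ.erase (⟨n - 1, by omega⟩ : Fin n), X i := by
  classical
  have h : (Finset.univ.erase (⟨n - 1, by omega⟩ : Fin n)) =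
      Finset.univ.map (Fin.castLEEmb (Nat.sub_le n 1)) := by
    ext i
    simp only [Finset.mem_erase, Finset.mem_univ, and_true, Finset.mem_map, true_and,
      Fin.coe_castLEEmb]
    constructor
    · intro hi
      have : (i : ℕ) < n - 1 := by
        have h1 := i.2
        have h2 : (i : ℕ) ≠ n - 1 := fun h => hi (Fin.ext h)
        omega
      exact ⟨⟨i, this⟩, rfl⟩
    · rintro ⟨j, rfl⟩ h1
      have h2 := congrArg Fin.val h1
      have h3 := j.2
      simp at h2
      omega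
  rw [h, Finset.prod_map]
  rfl

theorem result (K : Type u) [Field K] (p : ℕ) [Fact p.Prime] [CharP K p]
    (n : ℕ) (hn : 4 ≤ n) (m : ℕ) (hm : 1 ≤ m) (d : ℕ) (hd : d < (n - 1) * (p ^ m - 1)) :
    ∃ τ : AutFree K n,
      (τ (FreeAlgebra.ι K ⟨n - 1, by omega⟩) = FreeAlgebra.ι K ⟨n - 1, by omega⟩ +
          (List.ofFn fun i : Fin (n - 1) =>
            FreeAlgebra.ι K (Fin.castLE (Nat.sub_le n 1) i)).prod ^ (p ^ m - 1) ∧
        ∀ i : Fin n, i ≠ ⟨n - 1, by omega⟩ → τ (FreeAlgebra.ι K i) = FreeAlgebra.ι K i) ∧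
      τ ∉ Subgroup.closure
        {φ : AutFree K n | IsAffine φ ∨ IsSigma hn φ ∨ IsElementary d φ} := by
  have hp2 : 2 ≤ p := (Fact.out : p.Prime).two_le
  have hq2 : 2 ≤ p ^ m := le_trans hp2 (Nat.le_self_pow (by omega) p)
  have hbig : 2 < (n - 1) * (p ^ m - 1) := by
    have h1 : 3 ≤ n - 1 := by omega
    have h2 : 1 ≤ p ^ m - 1 := by omega
    calc 2 < 3 * 1 := by norm_num
      _ ≤ (n - 1) * (p ^ m - 1) := Nat.mul_le_mul h1 h2
  obtain ⟨τ, hτ1, hτ2⟩ := exists_elementary (K := K) (⟨n - 1, by omega⟩ : Fin n)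
    ((List.ofFn fun i : Fin (n - 1) =>
            FreeAlgebra.ι K (Fin.castLE (Nat.sub_le n 1) i)).prod ^ (p ^ m - 1)) (by
      apply Subalgebra.pow_mem
      apply Subalgebra.list_prod_mem
      intro x hx
      rw [List.mem_ofFn] at hx
      obtain ⟨i, rfl⟩ := hx
      apply Algebra.subset_adjoin
      refine ⟨_, ?_, rfl⟩
      intro h1
      have h2 := congrArg Fin.val h1
      have h3 := i.2
      simp at h2
      omega)
  refine ⟨τ, ⟨hτ1, hτ2⟩, fun hmem => ?_⟩
  set D := max d 2 with hD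
  have hsub : {φ : AutFree K n | IsAffine φ ∨ IsSigma hn φ ∨ IsElementary d φ} ⊆
      {φ : AutFree K n | IsAffine φ ∨ IsElementary D φ} := by
    rintro φ (h | h | h)
    · exact Or.inl h
    · right
      refine ⟨⟨n - 1, by omega⟩, _, ?_, h.1, h.2⟩
      apply Submodule.subset_span
      refine ⟨[⟨0, by omega⟩, ⟨1, by omega⟩], ?_, ?_, ?_⟩
      · simp [hD]
      · simp only [List.mem_cons, Fin.mk.injEq, List.not_mem_nil, or_false, not_or]
        omega
      · simp
    · right
      obtain ⟨k, f, hf, h1, h2⟩ := h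
      refine ⟨k, f, ?_, h1, h2⟩
      refine Submodule.span_mono ?_ hf
      rintro w ⟨l, hl, hk, rfl⟩
      exact ⟨l, hl.trans (le_max_left _ _), hk, rfl⟩
  have hmem' := Subgroup.closure_mono hsub hmem
  have hgood := good_of_mem_closure p m D (by omega) (by rw [hD]; exact max_lt hd hbig)
    (⟨n - 1, by omega⟩ : Fin n) τ hmem'
  have hind : ind τ = elem (⟨n - 1, by omega⟩ : Fin n)
      ((∏ i ∈ Finset.univ.erase (⟨n - 1, by omega⟩ : Fin n), X i) ^ (p ^ m - 1)) := by
    apply MvPolynomial.algHom_ext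
    intro i
    rw [ind_X]
    by_cases hi : i = ⟨n - 1, by omega⟩
    · subst hi
      rw [hτ1, elem_X_self, map_add, ab_ι, map_pow, map_list_prod, List.map_ofFn,
        List.prod_ofFn, ← prod_castLE n (by omega)]
      simp
    · rw [hτ2 i hi, elem_X_ne hi, ab_ι]
  have hflux := hgood.flux
  rw [hind] at hflux
  refine not_flux (p ^ m) (by omega) (⟨n - 1, by omega⟩ : Fin n) ⟨0, by omega⟩ ?_ _ rfl hflux
  intro h
  have := congrArg Fin.val h
  simp at this
  omega

end Pool.Agent.Results.MP_119ce6_al.PosChar
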